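import Pool.Agent.PLX.Ns
import Pool.Agent.PLX.NUGC.DefC
import Pool.Agent.PLX.NUSea.H0.DatC
import Pool.Agent.PLX.NUSea.H0.H0
import Pool.Agent.NUBR.Z1B

/-!
# The positive gas of TARGET-C without activities, two fillings

`B : OB` one body data; the quanta of species `a` are on the curve `Fil.cv a η`.

* `qAc_nonneg`, `WO_smul2`: constants of the two species;
* `aFe`: the one body factor of the data of the sea with a real exponent;
* `qAc_le_inp`: the one body factor of a configuration against the data `datO I P O`, when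
  `I.η a` is the curve `Fil.cv a η`.
-/

set_option autoImplicit false
set_option linter.unusedSectionVars false

noncomputable section

open MeasureTheory Finset
open scoped ENNReal
open PLX (Fil)

namespace NUBR.PLX

open NUO NU42 NUGC NUGC.PLX

/-! ### the gas of `DefC` -/

theorem prod_potN_nonneg (P : Par) {r : ℕ} (O : Fin r → Xo) (s : Bool) (u : ℂ) :
    0 ≤ ∏ i, potN P O i s u := Finset.prod_nonneg fun _ _ => potN_nonneg _ _ _ _ _

theorem qAc_nonneg [Fil] {B : OB} (hB : B.Nn) (P : Par) (η : ℝ → ℝ) {r : ℕ} (O : Fin r → Xo)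
    (a : Bool) (t : ℝ) : 0 ≤ qAc B P η O a t := by
  have h1 := hB a (NUO.pA (Fil.cv a η) t)
  have h2 := prod_potN_nonneg P O a (NUO.pA (Fil.cv a η) t)
  have := Real.pi_pos
  unfold qAc
  positivity

/-- the combinatorial factor -/
theorem fac_inv (p n : ℕ) : ((p.factorial : ℝ≥0∞) * n.factorial)⁻¹ =
    ENNReal.ofReal (((p.factorial : ℝ) * n.factorial)⁻¹) := by
  have hf : (0 : ℝ) < (p.factorial : ℝ) * n.factorial := by positivity
  rw [ENNReal.ofReal_inv_of_pos hf, ENNReal.ofReal_mul (by positivity), ENNReal.ofReal_natCast,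
    ENNReal.ofReal_natCast]

/-- constants -/
theorem fac_cancel (p n : ℕ) {c x y : ℝ} (hc : 0 ≤ c) (h : c * Real.exp x = Real.exp y) :
    ENNReal.ofReal c * (((p.factorial : ℝ≥0∞) * n.factorial)⁻¹ *
      ENNReal.ofReal ((p.factorial : ℝ) * n.factorial * Real.exp x)) =
      ENNReal.ofReal (Real.exp y) := by
  have hf : (0 : ℝ) < (p.factorial : ℝ) * n.factorial := by positivity
  rw [fac_inv, ← ENNReal.ofReal_mul (by positivity), ← ENNReal.ofReal_mul hc, ← h]
  congr 1
  field_simp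

/-- constants of the two species -/
theorem WO_smul2 {p n : ℕ} (DX DX1 DY DY1 : ℝ → ℂ) (c c' : ℝ) (a a' : ℝ → ℝ) (t : Fin p → ℝ)
    (t' : Fin n → ℝ) :
    WO DX DX1 DY DY1 (fun x => c * a x) (fun x => c' * a' x) t t' =
      c ^ p * c' ^ n * WO DX DX1 DY DY1 a a' t t' := by
  unfold WO
  rw [ob_smul, ob_smul]
  ring

/-! ### the gas of the sea -/

/-- one body factor of the data with a real exponent `e` -/
def aFe [NUSea.Sea] (X : NUSea.PLX.H0.Dat) (e : Bool → ℝ → ℝ) (a : Bool) (t : ℝ) : ℝ :=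
  Real.exp ((NUSea.PLX.vb X.s a (X.ζ a t)).re + (X.F a (X.ζ a t)).re + e a t)

/-- the one body factor of a configuration on the curve -/
theorem qAc_le_inp [NUSea.Sea] [Fil] {B : OB} {I : NUSea.PLX.H0.Inp} {P : Par} {δ : ℝ} (hP : PG δ P)
    {η : ℝ → ℝ} {a : Bool} (hI : I.η a = Fil.cv a η) (hη : ∀ t, |I.η a t| < δ * NUMF.l) {r : ℕ}
    (O : Fin r → Xo) {t κ e cf : ℝ}
    (h : B.R a (NUO.pA (I.η a) t) * ‖B.φ a (NUO.pA (I.η a) t)‖ ≤ 2 * Real.cos NUP1.l * Real.exp κ *
      (Real.exp ((NUSea.PLX.vb I.s a (NUAct.zt (NUKer.iD (I.η a)) t)).re +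
        (I.A a (NUAct.zt (NUKer.iD (I.η a)) t)).re + e) * cf)) :
    qAc B P η O a t ≤ NUMFC.act * Real.exp κ *
      (Real.exp ((NUSea.PLX.vb I.s a (NUAct.zt (NUKer.iD (I.η a)) t)).re +
        (NUSea.PLX.H0.FA I P O a (NUAct.zt (NUKer.iD (I.η a)) t)).re + e) * cf) := by
  have h1 : ∏ i, potN P O i a (NUO.pA (I.η a) t) =
      Real.exp (FO P O a (NUAct.zt (NUKer.iD (I.η a)) t)).re := prod_potN O hP a (hη t)
  have hpi := Real.pi_pos
  set w := NUAct.zt (NUKer.iD (I.η a)) t
  have h2 : (NUSea.PLX.H0.FA I P O a w).re = (FO P O a w).re + (I.A a w).re := by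
    unfold NUSea.PLX.H0.FA
    rw [Complex.add_re]
  unfold qAc
  rw [← hI, h1, h2, ← act_cos]
  calc (2 * Real.pi)⁻¹ * (B.R a (NUO.pA (I.η a) t) * ‖B.φ a (NUO.pA (I.η a) t)‖) *
        Real.exp (FO P O a w).re ≤ (2 * Real.pi)⁻¹ * (2 * Real.cos NUP1.l * Real.exp κ *
          (Real.exp ((NUSea.PLX.vb I.s a w).re + (I.A a w).re + e) * cf)) *
        Real.exp (FO P O a w).re := by gcongr
    _ = _ := by
        rw [show (NUSea.PLX.vb I.s a w).re + ((FO P O a w).re + (I.A a w).re) + e =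
          ((NUSea.PLX.vb I.s a w).re + (I.A a w).re + e) + (FO P O a w).re by ring, Real.exp_add
            ((NUSea.PLX.vb I.s a w).re + (I.A a w).re + e)]
        ring

end NUBR.PLX

end
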